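import Mathlib

namespace Pool.Agent.H.MP_265233_co

/-- cover pairs of the two-dimensional order given by `a`, `b` -/
def Cov {V : Type} (a b : V → ℕ) (u v : V) : Prop :=
  a u < a v ∧ b u < b v ∧ ¬ ∃ w, a u < a w ∧ a w < a v ∧ b u < b w ∧ b w < b v

lemma lexlt {x y s r K : ℕ} (hs : s < K) (hr : r < K) :
    x * K + s < y * K + r ↔ x < y ∨ (x = y ∧ s < r) := by
  constructor
  · intro h
    rcases lt_trichotomy x y with h1 | h1 | h1
    · exact Or.inl h1
    · subst h1; exact Or.inr ⟨rfl, by omega⟩
    · have : (y + 1) * K ≤ x * K := Nat.mul_le_mul_right K h1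
      rw [add_mul] at this; omega
  · rintro (h | ⟨rfl, h⟩)
    · have : (x + 1) * K ≤ y * K := Nat.mul_le_mul_right K h
      rw [add_mul] at this; omega
    · omega

lemma lexeq {x y s r K : ℕ} (hs : s < K) (hr : r < K) (h : x * K + s = y * K + r) :
    x = y ∧ s = r := by
  have h1 := (lexlt (x := x) (y := y) hs hr).not.1 (by omega)
  have h2 := (lexlt (x := y) (y := x) hr hs).not.1 (by omega)
  omega

theorem hasse (k : ℕ) : ∃ (V : Type) (_ : Fintype V) (a b : V → ℕ), a.Injective ∧ b.Injective ∧
    ∀ (s : Finset ℕ) (c : V → ℕ), s.card ≤ k → (∀ v, c v ∈ s) → ∃ u v, Cov a b u v ∧ c u = c v := by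
  classical
  induction k with
  | zero =>
    refine ⟨Unit, inferInstance, fun _ => 0, fun _ => 0, fun _ _ _ => rfl, fun _ _ _ => rfl,
      fun s c hs hc => ?_⟩
    have : s = ∅ := Finset.card_eq_zero.1 (by omega)
    exact absurd (hc ()) (by simp [this])
  | succ k ih =>
    obtain ⟨V, _, a, b, ha, hb, h⟩ := ih
    set m := Fintype.card V with hm
    set N := (k + 1) * m + 1 with hN
    let T := {f : V → Fin N // ∀ u v, a u < a v → f u < f v}
    set M := Fintype.card T with hM
    let t : T → ℕ := fun f => Fintype.equivFin T f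
    have htM : ∀ f, t f < M := fun f => (Fintype.equivFin T f).2
    have hti : ∀ f g, t f = t g → f = g := fun f g e => (Fintype.equivFin T).injective (Fin.ext e)
    set B := Finset.univ.sup b + N + 1 with hB
    have hbB : ∀ v, b v < B := fun v => by
      have := Finset.le_sup (f := b) (Finset.mem_univ v); omega
    have hxB : ∀ x : Fin N, (x : ℕ) < B := fun x => by have := x.2; omega
    have hrefl : ∀ (f : T) u v, f.1 u < f.1 v → a u < a v := fun f u v huv => by
      rcases lt_trichotomy (a u) (a v) with h1 | h1 | h1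
      · exact h1
      · rw [ha h1] at huv; exact absurd huv (lt_irrefl _)
      · exact absurd (f.2 _ _ h1) (not_lt.2 huv.le)
    have hinj : ∀ (f : T) u v, f.1 u = f.1 v → u = v := fun f u v huv => by
      rcases lt_trichotomy (a u) (a v) with h1 | h1 | h1
      · exact absurd (f.2 _ _ h1) (by rw [huv]; exact lt_irrefl _)
      · exact ha h1
      · exact absurd (f.2 _ _ h1) (by rw [huv]; exact lt_irrefl _)
    let a' : Fin N ⊕ (T × V) → ℕ := fun z => match z with
      | .inl x => x * (M + 1) + M
      | .inr p => p.1.1 p.2 * (M + 1) + t p.1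
    let b' : Fin N ⊕ (T × V) → ℕ := fun z => match z with
      | .inl x => M * B + x
      | .inr p => (M - 1 - t p.1) * B + b p.2
    have htM' : ∀ f, t f < M + 1 := fun f => (htM f).trans (Nat.lt_succ_self _)
    have hMM : M < M + 1 := Nat.lt_succ_self _
    refine ⟨Fin N ⊕ (T × V), inferInstance, a', b', ?_, ?_, fun s c hs hc => ?_⟩
    · rintro (x | ⟨f, u⟩) (y | ⟨g, v⟩) e
      · exact congrArg _ (Fin.ext (lexeq hMM hMM e).1)
      · have := (lexeq hMM (htM' g) e).2; have := htM g; omega
      · have := (lexeq (htM' f) hMM e).2; have := htM f; omega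
      · obtain ⟨e1, e2⟩ := lexeq (htM' f) (htM' g) e
        obtain rfl := hti _ _ e2
        rw [hinj f u v (Fin.ext e1)]
    · rintro (x | ⟨f, u⟩) (y | ⟨g, v⟩) e
      · exact congrArg _ (Fin.ext (lexeq (hxB x) (hxB y) e).2)
      · have := (lexeq (hxB x) (hbB v) e).1; have := htM g; omega
      · have := (lexeq (hbB u) (hxB y) e).1; have := htM f; omega
      · obtain ⟨e1, e2⟩ := lexeq (hbB u) (hbB v) e
        have := htM f; have := htM g
        simp only at e1 e2
        obtain rfl := hti f g (by omega)
        rw [hb e2]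
    · by_contra hno
      push Not at hno
      have hsne : s.Nonempty := ⟨_, hc (.inl ⟨0, by omega⟩)⟩
      obtain ⟨j, hj, hcard⟩ := Finset.exists_le_card_fiber_of_mul_le_card_of_maps_to
        (s := (Finset.univ : Finset (Fin N))) (t := s) (f := fun x => c (.inl x)) (n := m)
        (fun x _ => hc _) hsne (by
          have := Nat.mul_le_mul_right m hs
          simp only [Finset.card_univ, Fintype.card_fin]; omega)
      let e := Finset.orderEmbOfCardLe _ hcard
      have hrk : ∀ v, (Finset.univ.filter fun w => a w < a v).card < m :=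
        fun v => Finset.card_lt_card (Finset.filter_ssubset.2 ⟨v, Finset.mem_univ _, lt_irrefl _⟩)
      let f : T := ⟨fun v => e ⟨_, hrk v⟩, fun u v huv => e.strictMono (by
        refine Finset.card_lt_card ⟨fun w hw => ?_, fun hh => ?_⟩
        · simp only [Finset.mem_filter, Finset.mem_univ, true_and] at hw ⊢; omega
        · have := hh (show u ∈ _ by simpa using huv)
          simp at this)⟩
      have hfj : ∀ v, c (.inl (f.1 v)) = j := fun v => by
        have := Finset.orderEmbOfCardLe_mem _ hcard ⟨_, hrk v⟩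
        exact (Finset.mem_filter.1 this).2
      have hne : ∀ v, c (.inr (f, v)) ≠ j := fun v => by
        rw [← hfj v]
        refine hno _ _ ⟨(lexlt (htM' f) hMM).2 (Or.inr ⟨rfl, htM f⟩),
          (lexlt (hbB v) (hxB _)).2 (Or.inl (by have := htM f; omega)), ?_⟩
        rintro ⟨(x | ⟨g, w⟩), h1, h2, h3, h4⟩
        · have h1 := (lexlt (htM' f) hMM).1 h1
          have h2 := (lexlt hMM hMM).1 h2
          simp only at h1 h2
          omega
        · have h1 := (lexlt (htM' f) (htM' g)).1 h1
          have h2 := (lexlt (htM' g) hMM).1 h2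
          have h3 := (lexlt (hbB v) (hbB w)).1 h3
          have := htM f; have := htM g
          simp only at h1 h2 h3
          omega
      obtain ⟨u, v, ⟨h1, h2, h3⟩, hc'⟩ := h (s.erase j) (fun v => c (.inr (f, v)))
        (by rw [Finset.card_erase_of_mem hj]; omega)
        (fun v => Finset.mem_erase.2 ⟨hne v, hc _⟩)
      refine hno (.inr (f, u)) (.inr (f, v)) ⟨(lexlt (htM' f) (htM' f)).2 (Or.inl (f.2 _ _ h1)),
        (lexlt (hbB u) (hbB v)).2 (Or.inr ⟨rfl, h2⟩), ?_⟩ hc'
      rintro ⟨(x | ⟨g, w⟩), h4, h5, h6, h7⟩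
      · have h7 := (lexlt (hxB x) (hbB v)).1 h7
        have := htM f
        simp only at h7
        omega
      · have h6 := (lexlt (hbB u) (hbB w)).1 h6
        have h7 := (lexlt (hbB w) (hbB v)).1 h7
        have := htM f; have := htM g
        simp only at h6 h7
        obtain rfl := hti f g (by omega)
        have h4 := (lexlt (htM' f) (htM' f)).1 h4
        have h5 := (lexlt (htM' f) (htM' f)).1 h5
        simp only at h4 h5
        exact h3 ⟨w, hrefl f _ _ (by rw [Fin.lt_def]; omega),
          hrefl f _ _ (by rw [Fin.lt_def]; omega), by omega, by omega⟩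

end Pool.Agent.H.MP_265233_co
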